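import Mathlib
import Pool.Agent.H.MP_b2749c_lc.Core

set_option autoImplicit false
set_option linter.unusedSectionVars false

namespace Pool.Agent.Results.MP_b2749c_lc.Undecidable

/-- The alphabet size `d` and, for each generator, the list over letters `x` of the image letter
and of the section, a group word in the generators. -/
abbrev Input : Type := ℕ × List (List (ℕ × List (ℕ × Bool)))

def entry (I : Input) (i x : ℕ) : ℕ × List (ℕ × Bool) := (I.2.getD i []).getD x (0, [])

def Valid (I : Input) : Prop :=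
  2 ≤ I.1 ∧ ∀ row ∈ I.2, (row.map Prod.fst).Perm (List.range I.1) ∧
    ∀ e ∈ row, ∀ p ∈ e.2, p.1 < I.2.length

def IsAction (I : Input) (g : ℕ → Equiv.Perm (List (Fin I.1))) : Prop :=
  ∀ i, i < I.2.length → g i [] = [] ∧ ∀ (x y : Fin I.1) (w : List (Fin I.1)),
    (entry I i x).1 = y → g i (x :: w) = y :: FreeGroup.lift g (FreeGroup.mk (entry I i x).2) w

def LevelTransitive (I : Input) : Prop :=
  ∃ g, IsAction I g ∧ ∀ u v : List (Fin I.1), u.length = v.length →
    ∃ γ ∈ Subgroup.closure (g '' Set.Iio I.2.length), γ u = v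

open Pool.Agent.H.MP_b2749c_lc Pool.Agent.Lib.helper21.Mach List

variable {Q : Type} [DecidableEq Q] (M : CM Q) {D : ℕ} (c : Y Q ≃ ZMod D)

theorem sig_inj (i : Gn Q) : Function.Injective (sig M c i) := fun x x' h =>
  Prod.ext ((sig_fst M c i x x').1 (congrArg Prod.fst h))
    (by have := congrArg Prod.snd h; cases i <;> simpa [sig] using this)

theorem W_map {G H : Type} [Group G] [Group H] (φ : G →* H) (n : ℕ) (g : Gn Q → G)
    (l : List (It Q)) : W n (fun i => φ (g i)) l = φ (W n g l) := by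
  induction l with
  | nil => simp
  | cons z l ih =>
    rw [W_cons, W_cons, ih, map_mul]
    congr 1
    obtain ⟨⟨i, e⟩, f⟩ := z
    cases e <;> cases f <;> simp [iv]

def node {α : Type} (π : Equiv.Perm α) (f : α → Equiv.Perm (List α)) : Equiv.Perm (List α) where
  toFun | [] => [] | x :: w => π x :: f x w
  invFun | [] => [] | y :: w => π.symm y :: (f (π.symm y)).symm w
  left_inv := by rintro (_ | ⟨x, w⟩) <;> simp
  right_inv := by rintro (_ | ⟨x, w⟩) <;> simp

theorem exists_act [Finite Q] (n : ℕ) : ∃ g, Act M c n g := by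
  let π : Gn Q → Equiv.Perm (X Q) := fun i =>
    Equiv.ofBijective _ (Finite.injective_iff_bijective.1 (sig_inj M c i))
  let lv : ℕ → Gn Q → Equiv.Perm (List (X Q)) := fun m =>
    Nat.rec (fun _ => 1) (fun _ g i => node (π i) fun x => W n g (base M c i x.1)) m
  have h1 : ∀ m i, lv m i ∈ Fix length := by
    intro m
    induction m with
    | zero => exact fun i => one_mem _
    | succ m ih =>
      rintro i (_ | ⟨x, w⟩)
      · rfl
      · exact congrArg (· + 1)
          ((Subgroup.closure_le _).2 (Set.range_subset_iff.2 ih) (W_mem n (lv m) _) w)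
  let g : Gn Q → Equiv.Perm (List (X Q)) := fun i =>
    { toFun := fun w => lv w.length i w
      invFun := fun w => (lv w.length i)⁻¹ w
      left_inv := fun w => by simp only [h1 _ i w]; simp
      right_inv := fun w => by simp only [inv_mem (h1 _ i) w]; simp }
  refine ⟨g, fun i => rfl, fun i x w => ?_⟩
  let K : Subgroup (Equiv.Perm (List (X Q)) × Equiv.Perm (List (X Q))) :=
    { carrier := {p | p.2 ∈ Fix length ∧ ∀ v : List (X Q), v.length = w.length → p.1 v = p.2 v}
      one_mem' := ⟨one_mem _, fun _ _ => rfl⟩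
      mul_mem' := fun {p q} hp hq => ⟨mul_mem hp.1 hq.1, fun v hv => by
        show p.1 (q.1 v) = p.2 (q.2 v)
        rw [hq.2 v hv, hp.2 _ ((hq.1 v).trans hv)]⟩
      inv_mem' := fun {p} hp => ⟨inv_mem hp.1, fun v hv => by
        show p.1⁻¹ v = p.2⁻¹ v
        rw [Equiv.Perm.inv_eq_iff_eq, hp.2 _ ((inv_mem hp.1 v).trans hv)]; simp⟩ }
  have h2 : W n (fun i => (g i, lv w.length i)) (base M c i x.1) ∈ K :=
    (Subgroup.closure_le K).2 (Set.range_subset_iff.2 fun i => ⟨h1 _ i, fun v hv => by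
      show lv v.length i v = _
      rw [hv]⟩) (W_mem n _ _)
  have h3 := h2.2 w rfl
  have h4 := W_map (MonoidHom.fst _ _) n (fun i => (g i, lv w.length i)) (base M c i x.1)
  have h5 := W_map (MonoidHom.snd _ _) n (fun i => (g i, lv w.length i)) (base M c i x.1)
  simp only [MonoidHom.coe_fst, MonoidHom.coe_snd] at h4 h5
  rw [← h4, ← h5] at h3
  exact congrArg (sig M c i x :: ·) h3.symm

variable {d k : ℕ} (eX : X Q ≃ Fin d) (eG : Gn Q ≃ Fin k)

def wd (n : ℕ) (l : List (It Q)) : List (ℕ × Bool) :=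
  l.flatMap fun z => replicate (if z.2 then 2 ^ n else 1) ((eG z.1.1).val, z.1.2)

def Inp (n : ℕ) : Input := (d, ofFn fun i : Fin k => ofFn fun x : Fin d =>
  ((eX (sig M c (eG.symm i) (eX.symm x))).val, wd eG n (base M c (eG.symm i) (eX.symm x).1)))

theorem lift_wd {G : Type} [Group G] (g : ℕ → G) (n : ℕ) (l : List (It Q)) :
    FreeGroup.lift g (FreeGroup.mk (wd eG n l)) = W n (fun i => g (eG i)) l := by
  rw [FreeGroup.lift_mk]
  induction l with
  | nil => rfl
  | cons z l ih => rw [W_cons, ← ih]; simp [wd, iv]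

theorem entry_inp (n : ℕ) (i : Fin k) (x : Fin d) : entry (Inp M c eX eG n) i x =
    ((eX (sig M c (eG.symm i) (eX.symm x))).val,
      wd eG n (base M c (eG.symm i) (eX.symm x).1)) := by
  simp [entry, Inp]

theorem valid_inp [Finite Q] (hd : 2 ≤ d) (n : ℕ) : Valid (Inp M c eX eG n) := by
  refine ⟨hd, fun row hr => ?_⟩
  obtain ⟨i, rfl⟩ := mem_ofFn.1 hr
  refine ⟨?_, fun e he p hp => ?_⟩
  · let π : Equiv.Perm (Fin d) := Equiv.ofBijective (fun x => eX (sig M c (eG.symm i) (eX.symm x)))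
      (Finite.injective_iff_bijective.1
        (eX.injective.comp ((sig_inj M c _).comp eX.symm.injective)))
    have := Equiv.Perm.ofFn_comp_perm π Fin.val
    rw [map_ofFn]
    refine this.trans (Perm.of_eq ?_)
    exact ext_getElem (by simp [Inp]) (by simp [Inp])
  · obtain ⟨x, rfl⟩ := mem_ofFn.1 he
    simp only [wd, mem_flatMap, mem_replicate] at hp
    obtain ⟨z, -, -, rfl⟩ := hp
    simp [Inp]

theorem act_iff (n : ℕ) (g : ℕ → Equiv.Perm (List (Fin d))) : IsAction (Inp M c eX eG n) g ↔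
    Act M c n (fun i => (Equiv.listEquivOfEquiv eX.symm).permCongrHom (g (eG i))) := by
  have hW : ∀ l, W n (fun i => (Equiv.listEquivOfEquiv eX.symm).permCongrHom (g (eG i))) l =
      (Equiv.listEquivOfEquiv eX.symm).permCongrHom (W n (fun i => g (eG i)) l) := fun l =>
    W_map (Equiv.listEquivOfEquiv eX.symm).permCongrHom.toMonoidHom n _ l
  show (∀ i, i < (Inp M c eX eG n).2.length → g i [] = [] ∧ ∀ (x y : Fin d) (w : List (Fin d)),
    (entry (Inp M c eX eG n) i x).1 = y → g i (x :: w) =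
      y :: FreeGroup.lift g (FreeGroup.mk (entry (Inp M c eX eG n) i x).2) w) ↔ _
  constructor
  · intro h
    have h' := fun i => h (eG i) (by simp [Inp])
    refine ⟨fun i => by simp [Equiv.listEquivOfEquiv, (h' i).1], fun i x w => ?_⟩
    have := (h' i).2 (eX x) (eX (sig M c i x)) (w.map eX) (by rw [entry_inp]; simp)
    rw [hW]
    simp only [entry_inp, lift_wd, Equiv.symm_apply_apply] at this
    simp [Equiv.listEquivOfEquiv, this]
  · intro h i hi
    have hi' : i < k := by simpa [Inp] using hi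
    obtain ⟨i, rfl⟩ : ∃ j, (eG j).val = i := ⟨eG.symm ⟨i, hi'⟩, by simp⟩
    refine ⟨by simpa [Equiv.listEquivOfEquiv] using h.nil i, fun x y w hy => ?_⟩
    rw [entry_inp] at hy ⊢
    obtain rfl : eX (sig M c (eG.symm (eG i)) (eX.symm x)) = y := Fin.ext hy
    have := congrArg (map eX) (h.cons i (eX.symm x) (w.map eX.symm))
    rw [hW] at this
    simp only [lift_wd]
    simpa [Equiv.listEquivOfEquiv] using this

theorem lt_iff [Finite Q] [NeZero D] (n : ℕ) :
    LevelTransitive (Inp M c eX eG n) ↔ ¬ ∃ j, M.it n j = none := by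
  let Φ := (Equiv.listEquivOfEquiv eX.symm).permCongrHom
  have hcl : ∀ g : ℕ → Equiv.Perm (List (Fin d)), ∀ γ, γ ∈ Subgroup.closure (g '' Set.Iio k) ↔
      Φ γ ∈ Subgroup.closure (Set.range fun i => Φ (g (eG i))) := fun g γ => by
    have : (Set.range fun i => Φ (g (eG i))) = Φ.toMonoidHom '' (g '' Set.Iio k) := by
      ext z
      constructor
      · rintro ⟨i, rfl⟩; exact ⟨_, ⟨_, (eG i).2, rfl⟩, rfl⟩
      · rintro ⟨_, ⟨i, hi, rfl⟩, rfl⟩; exact ⟨eG.symm ⟨i, hi⟩, by simp⟩
    rw [this, ← MonoidHom.map_closure]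
    exact (Subgroup.mem_map_iff_mem (f := Φ.toMonoidHom) Φ.injective).symm
  have hk : (Inp M c eX eG n).2.length = k := by simp [Inp]
  show (∃ g : ℕ → Equiv.Perm (List (Fin d)), IsAction (Inp M c eX eG n) g ∧
    ∀ u v : List (Fin d), u.length = v.length →
      ∃ γ ∈ Subgroup.closure (g '' Set.Iio (Inp M c eX eG n).2.length), γ u = v) ↔ _
  rw [hk]
  constructor
  · rintro ⟨g, hg, h⟩ ⟨N, hN⟩
    obtain ⟨u, v, h1, h2⟩ := ((act_iff M c eX eG n g).1 hg).not_trans N hN
    obtain ⟨γ, h3, h4⟩ := h (u.map eX) (v.map eX) (by simpa using h1)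
    refine h2 _ ((hcl g γ).1 h3) ?_
    simp [Φ, Equiv.listEquivOfEquiv, h4]
  · intro hN
    obtain ⟨g0, h0⟩ := exists_act M c n
    let g : ℕ → Equiv.Perm (List (Fin d)) := fun j =>
      if h : j < k then Φ.symm (g0 (eG.symm ⟨j, h⟩)) else 1
    have e : (fun i => Φ (g (eG i))) = g0 := funext fun i => by simp [g]
    refine ⟨g, (act_iff M c eX eG n g).2 (e ▸ h0), fun u v h => ?_⟩
    obtain ⟨γ, h1, h2⟩ := h0.trans (not_exists.1 hN) (u.map eX.symm) (v.map eX.symm)
      (by simpa using h)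
    refine ⟨Φ.symm γ, (hcl g _).2 (by simpa [e] using h1), ?_⟩
    simp [Φ, Equiv.listEquivOfEquiv, h2]

theorem prim_wd (l : List (It Q)) : Primrec fun n => wd eG n l := by
  induction l with
  | nil => exact Primrec.const []
  | cons z l ih =>
    refine (Primrec.list_append.comp ?_ ih).of_eq fun n => (flatMap_cons ..).symm
    cases z.2
    · exact Primrec.const _
    · have h2 : Primrec fun n : ℕ => 2 ^ n :=
        (Primrec₂.unpaired'.1 Nat.Primrec.pow).comp (Primrec.const 2) Primrec.id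
      exact (Primrec.list_map (Primrec.list_range.comp h2)
        (Primrec.const ((eG z.1.1).val, z.1.2)).to₂).of_eq fun n => by simp

theorem prim_inp : Primrec (Inp M c eX eG) :=
  (Primrec.const d).pair (Primrec.list_ofFn fun _ => Primrec.list_ofFn fun _ =>
    (Primrec.const _).pair (prim_wd eG _))

theorem result : ¬ ∃ f : Input →. Bool, Partrec f ∧
    ∀ I, Valid I → ∃ b ∈ f I, (b = true ↔ LevelTransitive I) := by
  classical
  rintro ⟨f, hf, h⟩
  obtain ⟨Q, _, M, hM⟩ := exists_cm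
  have : Finite (Gn Q) := Finite.of_surjective
    (fun z : Fin 6 × Q => ![Gn.a, .s0, .t, .k, .s z.2, .u z.2] z.1) (by
      rintro (_ | _ | _ | _ | q | q)
      exacts [⟨(0, M.start), rfl⟩, ⟨(1, M.start), rfl⟩, ⟨(2, M.start), rfl⟩, ⟨(3, M.start), rfl⟩,
        ⟨(4, q), rfl⟩, ⟨(5, q), rfl⟩])
  have : NeZero (Nat.card (Y Q)) := ⟨Nat.card_pos.ne'⟩
  let c : Y Q ≃ ZMod (Nat.card (Y Q)) := (Finite.equivFin _).trans (ZMod.finEquiv _).toEquiv
  let eX := Finite.equivFin (X Q)
  let eG := Finite.equivFin (Gn Q)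
  have hd : 2 ≤ Nat.card (X Q) := Finite.one_lt_card
  choose b hb1 hb2 using fun n => h _ (valid_inp M c eX eG hd n)
  have hb : Computable b := (hf.comp (prim_inp M c eX eG).to_comp).of_eq_tot hb1
  refine hM (ComputablePred.not (p := fun n => b n = true)
    (ComputablePred.computable_iff.2 ⟨b, hb, rfl⟩) |>.of_eq fun n => ?_)
  rw [hb2, lt_iff, not_not]

end Pool.Agent.Results.MP_b2749c_lc.Undecidable
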